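import Pool.Agent.P8FA.Main

set_option autoImplicit false
set_option linter.unusedSectionVars false

namespace Pool.Agent.P8FB

open Finset Filter Topology
open Pool.Agent.P8FA

/-- `pq (log q - log p)/(q - p)`, the product divided by the logarithmic mean -/
noncomputable def Phi (p q : ℝ) : ℝ :=
  if p = q then p else p * q * (Real.log q - Real.log p) / (q - p)

lemma hasSum_cc_lt' (p q : ℝ) (hp : 0 < p) (hpq : p < q) (hq1 : q ≤ 1) (f : ℕ → ℝ)
    (hf : ∀ n, (q - p) * f n = q * (1 - p) ^ (n + 2) - p * (1 - q) ^ (n + 2)) :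
    HasSum (fun n : ℕ => (1 - f n) / (((n : ℝ) + 1) * ((n : ℝ) + 2)))
      (p * q * (Real.log q - Real.log p) / (q - p)) := by
  have hq : 0 < q := hp.trans hpq
  have hd : 0 < q - p := by linarith
  have e1 := hasSum_phi (1 - p) (by linarith) (by linarith)
  have e2 := hasSum_phi (1 - q) (by linarith) (by linarith)
  have e3 := hasSum_one.sub (((e1.mul_left q).sub (e2.mul_left p)).mul_left (1 / (q - p)))
  have heq : (fun n : ℕ => (1 : ℝ) / (((n : ℝ) + 1) * ((n : ℝ) + 2)) - 1 / (q - p) *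
        (q * ((1 - p) ^ (n + 2) / (((n : ℝ) + 1) * ((n : ℝ) + 2))) -
          p * ((1 - q) ^ (n + 2) / (((n : ℝ) + 1) * ((n : ℝ) + 2)))))
        = fun n : ℕ => (1 - f n) / (((n : ℝ) + 1) * ((n : ℝ) + 2)) := by
      funext n
      have hfn : f n = (q * (1 - p) ^ (n + 2) - p * (1 - q) ^ (n + 2)) / (q - p) := by
        rw [eq_div_iff hd.ne', mul_comm, hf]
      rw [hfn]
      have h1 : (n : ℝ) + 1 ≠ 0 := by positivity
      have h2 : (n : ℝ) + 2 ≠ 0 := by positivity
      have h3 := hd.ne'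
      field_simp
  rw [heq] at e3
  have hv : 1 - 1 / (q - p) * (q * (1 - p + (1 - (1 - p)) * Real.log (1 - (1 - p))) -
        p * (1 - q + (1 - (1 - q)) * Real.log (1 - (1 - q))))
        = p * q * (Real.log q - Real.log p) / (q - p) := by
      rw [show (1 : ℝ) - (1 - p) = p by ring, show (1 : ℝ) - (1 - q) = q by ring]
      have h3 := hd.ne'
      field_simp
      ring
  rwa [hv] at e3

lemma hasSum_cc' (p q : ℝ) (hp : 0 ≤ p) (hq : 0 ≤ q) (hpq : p + q ≤ 1) :
    HasSum (fun n : ℕ => (1 - cc p q (n + 2)) / (((n : ℝ) + 1) * ((n : ℝ) + 2))) (Phi p q) := by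
  rcases hp.eq_or_lt with hp | hp
  · subst hp
    have : Phi 0 q = 0 := by unfold Phi; split_ifs <;> simp
    rw [this]
    simp [cc_zero_left, hasSum_zero]
  rcases hq.eq_or_lt with hq | hq
  · subst hq
    have : Phi p 0 = 0 := by
      unfold Phi
      rw [if_neg hp.ne']
      simp
    rw [this]
    simp [cc_zero_right, hasSum_zero]
  rcases lt_trichotomy p q with hlt | heq | hgt
  · unfold Phi
    rw [if_neg hlt.ne]
    exact hasSum_cc_lt' p q hp hlt (by linarith) _ (fun n => cc_ne p q (n + 2))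
  · subst heq
    have e1 := hasSum_phi (1 - p) (by linarith) (by linarith)
    have habs : |1 - p| < 1 := by
      rw [abs_of_nonneg (by linarith)]; linarith
    have e2 := (Real.hasSum_pow_div_log_of_abs_lt_one habs).mul_left p
    have e3 := (hasSum_one.sub e1).sub e2
    have heq : (fun n : ℕ => (1 : ℝ) / (((n : ℝ) + 1) * ((n : ℝ) + 2)) -
          (1 - p) ^ (n + 2) / (((n : ℝ) + 1) * ((n : ℝ) + 2)) -
            p * ((1 - p) ^ (n + 1) / ((n : ℝ) + 1)))
          = fun n : ℕ => (1 - cc p p (n + 2)) / (((n : ℝ) + 1) * ((n : ℝ) + 2)) := by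
        funext n
        rw [cc_eq]
        push_cast
        have h1 : (n : ℝ) + 1 ≠ 0 := by positivity
        have h2 : (n : ℝ) + 2 ≠ 0 := by positivity
        field_simp
        ring
    rw [heq] at e3
    unfold Phi
    rw [if_pos rfl]
    have hv : 1 - (1 - p + (1 - (1 - p)) * Real.log (1 - (1 - p)))
        - p * -Real.log (1 - (1 - p)) = p := by ring
    rwa [hv] at e3
  · have h1 := hasSum_cc_lt' q p hq hgt (by linarith) (fun n => cc p q (n + 2)) (fun n => by
      have := cc_ne p q (n + 2)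
      linarith)
    unfold Phi
    rw [if_neg hgt.ne']
    convert h1 using 1
    rw [show q - p = -(p - q) by ring, div_neg, ← neg_div]
    congr 1
    ring

variable {ι α : Type*} [Fintype ι] [DecidableEq ι] [DecidableEq α]

/-- the entropy inequality in its logarithmic mean form -/
theorem entropy_le_Phi (A B : ι → Finset α) (h : OneCross A B) (μ : ι → ℝ) (hμ0 : ∀ i, 0 ≤ μ i)
    (hμ : ∑ i, μ i = 1) (Ω : Finset α) (hΩ : ∀ i, B i ⊆ Ω) :
    - ∑ i, μ i * Real.log (μ i) ≤
      ∑ x ∈ Ω, Phi (∑ i, if x ∈ A i then μ i else 0) (∑ i, if x ∈ B i then μ i else 0) := by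
  have hμ1 : ∀ i, μ i ≤ 1 := by
    intro i
    rw [← hμ]
    exact Finset.single_le_sum (fun j _ => hμ0 j) (Finset.mem_univ i)
  have hpq : ∀ x ∈ Ω, HasSum (fun n : ℕ => (1 - cc (∑ i, if x ∈ A i then μ i else 0)
      (∑ i, if x ∈ B i then μ i else 0) (n + 2)) / (((n : ℝ) + 1) * ((n : ℝ) + 2)))
      (Phi (∑ i, if x ∈ A i then μ i else 0) (∑ i, if x ∈ B i then μ i else 0)) := by
    intro x _
    apply hasSum_cc'
    · apply Finset.sum_nonneg
      intro i _
      split_ifs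
      · exact hμ0 i
      · exact le_refl _
    · apply Finset.sum_nonneg
      intro i _
      split_ifs
      · exact hμ0 i
      · exact le_refl _
    · rw [← Finset.sum_add_distrib, ← hμ]
      apply Finset.sum_le_sum
      intro i _
      by_cases hA : x ∈ A i
      · have hB : x ∉ B i := by
          intro hB
          have h1 : x ∈ A i ∩ B i := Finset.mem_inter.2 ⟨hA, hB⟩
          rw [h.1 i] at h1
          simp at h1
        simp [hA, hB]
      · by_cases hB : x ∈ B i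
        · simp [hA, hB]
        · simp [hA, hB, hμ0 i]
  have hR := hasSum_sum (s := Ω) hpq
  have hL1 : ∀ i ∈ (Finset.univ : Finset ι), HasSum (fun n : ℕ => (1 : ℝ) / (((n : ℝ) + 1) * ((n : ℝ) + 2))
      - (1 - μ i) ^ (n + 2) / (((n : ℝ) + 1) * ((n : ℝ) + 2)))
      (1 - ((1 - μ i) + (1 - (1 - μ i)) * Real.log (1 - (1 - μ i)))) := by
    intro i _
    exact hasSum_one.sub (hasSum_phi (1 - μ i) (by linarith [hμ1 i]) (by linarith [hμ0 i]))
  have hL := (hasSum_sum hL1).sub hasSum_one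
  have hle : ∀ n : ℕ, (∑ i, ((1 : ℝ) / (((n : ℝ) + 1) * ((n : ℝ) + 2))
      - (1 - μ i) ^ (n + 2) / (((n : ℝ) + 1) * ((n : ℝ) + 2)))) - 1 / (((n : ℝ) + 1) * ((n : ℝ) + 2))
      ≤ ∑ x ∈ Ω, (1 - cc (∑ i, if x ∈ A i then μ i else 0)
      (∑ i, if x ∈ B i then μ i else 0) (n + 2)) / (((n : ℝ) + 1) * ((n : ℝ) + 2)) := by
    intro n
    have hb := basic A B h μ hμ0 hμ Ω hΩ (n + 2)
    have hpos : 0 < ((n : ℝ) + 1) * ((n : ℝ) + 2) := by positivity
    have hb2 := div_le_div_of_nonneg_right hb hpos.le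
    rw [Finset.sum_div] at hb2
    refine le_trans (le_of_eq ?_) hb2
    rw [sub_div, Finset.sum_div]
    congr 1
    apply Finset.sum_congr rfl
    intro i _
    rw [sub_div]
  have hfin := hasSum_le hle hL hR
  have hval : (∑ i, (1 - ((1 - μ i) + (1 - (1 - μ i)) * Real.log (1 - (1 - μ i))))) - 1
      = - ∑ i, μ i * Real.log (μ i) := by
    have : ∀ i, (1 - ((1 - μ i) + (1 - (1 - μ i)) * Real.log (1 - (1 - μ i))))
        = μ i - μ i * Real.log (μ i) := by
      intro i
      rw [show (1 : ℝ) - (1 - μ i) = μ i by ring]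
      ring
    rw [Finset.sum_congr rfl (fun i _ => this i), Finset.sum_sub_distrib, hμ]
    ring
  rw [hval] at hfin
  exact hfin

/-! ### the tangent inequality -/

/-- weight of an element of `A` at slope `ρ` -/
noncomputable def ss (ρ : ℝ) : ℝ := ρ * (ρ * Real.log ρ - ρ + 1) / (ρ - 1) ^ 2
/-- weight of an element of `B` at slope `ρ` -/
noncomputable def tt (ρ : ℝ) : ℝ := (ρ - 1 - Real.log ρ) / (ρ - 1) ^ 2

lemma log_ge (y : ℝ) (hy : 1 ≤ y) : 2 * (y - 1) ≤ (y + 1) * Real.log y := by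
  have h := Real.le_log_one_add_of_nonneg (x := y - 1) (by linarith)
  rw [show 1 + (y - 1) = y by ring, div_le_iff₀ (by linarith)] at h
  nlinarith

lemma log_le (y : ℝ) (hy0 : 0 < y) (hy : y ≤ 1) : (y + 1) * Real.log y ≤ 2 * (y - 1) := by
  have h := log_ge y⁻¹ ((one_le_inv₀ hy0).2 hy)
  rw [Real.log_inv] at h
  have h2 := mul_le_mul_of_nonneg_left h hy0.le
  have e1 : y * (2 * (y⁻¹ - 1)) = 2 * (1 - y) := by field_simp
  have e2 : y * ((y⁻¹ + 1) * -Real.log y) = -((y + 1) * Real.log y) := by field_simp; ring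
  rw [e1, e2] at h2
  linarith

lemma log_le_sinh (y : ℝ) (hy : 1 ≤ y) : Real.log y ≤ (y - y⁻¹) / 2 := by
  rw [← Real.sinh_log (by linarith)]
  exact Real.self_le_sinh_iff.2 (Real.log_nonneg hy)

lemma A1 (y : ℝ) (hy : 1 ≤ y) : y * Real.log y - y + 1 ≤ (y - 1) ^ 2 / 2 := by
  have h := mul_le_mul_of_nonneg_left (log_le_sinh y hy) (by linarith : (0:ℝ) ≤ y)
  have e : y * ((y - y⁻¹) / 2) = (y ^ 2 - 1) / 2 := by
    have : y ≠ 0 := by linarith
    field_simp
  rw [e] at h
  nlinarith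

lemma A2 (y : ℝ) (hy0 : 0 < y) (hy : y ≤ 1) : (y - 1) ^ 2 / 2 ≤ y * Real.log y - y + 1 := by
  have h := log_le_sinh y⁻¹ ((one_le_inv₀ hy0).2 hy)
  rw [Real.log_inv, inv_inv] at h
  have h2 := mul_le_mul_of_nonneg_left h hy0.le
  have e : y * ((y⁻¹ - y) / 2) = (1 - y ^ 2) / 2 := by
    field_simp
  rw [e] at h2
  nlinarith

/-- `g y = (y log y - y + 1)/(y-1)²` is antitone on `(0,1)` -/
lemma g_anti : AntitoneOn (fun y : ℝ => (y * Real.log y - y + 1) / (y - 1) ^ 2) (Set.Ioo 0 1) := by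
  have hd : ∀ y ∈ Set.Ioo (0:ℝ) 1, HasDerivAt (fun y : ℝ => (y * Real.log y - y + 1) / (y - 1) ^ 2)
      (((1 * Real.log y + y * y⁻¹ - 1) * (y - 1) ^ 2
        - (y * Real.log y - y + 1) * (2 * (y - 1) ^ 1 * 1)) / ((y - 1) ^ 2) ^ 2) y := by
    intro y hy
    have h1 : HasDerivAt (fun y : ℝ => y * Real.log y) (1 * Real.log y + y * y⁻¹) y :=
      (hasDerivAt_id y).mul (Real.hasDerivAt_log hy.1.ne')
    have h2 : HasDerivAt (fun y : ℝ => y * Real.log y - y + 1) (1 * Real.log y + y * y⁻¹ - 1) y :=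
      (h1.sub (hasDerivAt_id y)).add_const 1
    have h3 : HasDerivAt (fun y : ℝ => (y - 1) ^ 2) (2 * (y - 1) ^ 1 * 1) y := by
      have h5 : HasDerivAt (fun y : ℝ => y - 1) 1 y := (hasDerivAt_id y).sub_const 1
      have h6 : HasDerivAt (fun y : ℝ => y ^ 2) (((2 : ℕ) : ℝ) * (y - 1) ^ (2 - 1)) (y - 1) :=
        hasDerivAt_pow 2 (y - 1)
      have h7 := HasDerivAt.comp (h₂ := fun y : ℝ => y ^ 2) (h := fun y : ℝ => y - 1) y h6 h5
      have h4 : HasDerivAt (fun y : ℝ => (y - 1) ^ 2) (((2 : ℕ) : ℝ) * (y - 1) ^ (2 - 1) * 1) y := h7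
      convert h4 using 1
      norm_num
    exact h2.div h3 (pow_ne_zero 2 (sub_ne_zero.2 hy.2.ne))
  apply antitoneOn_of_deriv_nonpos (convex_Ioo 0 1)
  · intro y hy
    exact (hd y hy).continuousAt.continuousWithinAt
  · intro y hy
    rw [interior_Ioo] at hy
    exact (hd y hy).differentiableAt.differentiableWithinAt
  · intro y hy
    rw [interior_Ioo] at hy
    rw [(hd y hy).deriv]
    apply div_nonpos_of_nonpos_of_nonneg _ (by positivity)
    have e : (1 * Real.log y + y * y⁻¹ - 1) * (y - 1) ^ 2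
        - (y * Real.log y - y + 1) * (2 * (y - 1) ^ 1 * 1)
        = (1 - y) * ((y + 1) * Real.log y - 2 * (y - 1)) := by
      rw [mul_inv_cancel₀ hy.1.ne']
      ring
    rw [e]
    exact mul_nonpos_of_nonneg_of_nonpos (by linarith [hy.2]) (by linarith [log_le y hy.1 hy.2.le])

/-- the key comparison: `g y ≤ g (1/ρ)` for `y ≥ 1/ρ`, `g y ≥ g (1/ρ)` for `y ≤ 1/ρ` -/
lemma g_cmp (z y : ℝ) (hz0 : 0 < z) (hz1 : z < 1) (hy0 : 0 < y) :
    0 ≤ (y - z) * ((z * Real.log z - z + 1) * (y - 1) ^ 2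
      - (y * Real.log y - y + 1) * (z - 1) ^ 2) := by
  have hz2 : 0 < (z - 1) ^ 2 := by
    have : z - 1 ≠ 0 := by linarith
    positivity
  rcases lt_or_ge y 1 with hy1 | hy1
  · have hy2 : 0 < (y - 1) ^ 2 := by
      have : y - 1 ≠ 0 := by linarith
      positivity
    rcases le_total z y with h | h
    · have h1 := g_anti ⟨hz0, hz1⟩ ⟨hy0, hy1⟩ h
      simp only at h1
      rw [div_le_div_iff₀ hy2 hz2] at h1
      exact mul_nonneg (by linarith) (by linarith)
    · have h1 := g_anti ⟨hy0, hy1⟩ ⟨hz0, hz1⟩ h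
      simp only at h1
      rw [div_le_div_iff₀ hz2 hy2] at h1
      exact mul_nonneg_of_nonpos_of_nonpos (by linarith) (by linarith)
  · have h1 := A1 y hy1
    have h2 := A2 z hz0 hz1.le
    apply mul_nonneg (by linarith)
    have h3 := mul_le_mul_of_nonneg_right h1 hz2.le
    have h4 := mul_le_mul_of_nonneg_right h2 (sq_nonneg (y - 1))
    nlinarith

lemma tangent (ρ r : ℝ) (hρ : 1 < ρ) (hr : 0 < r) :
    r * Real.log r * (r - 1) ≤ (ss ρ + tt ρ * r) * (r - 1) ^ 2 := by
  have hρ0 : 0 < ρ := by linarith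
  have h := g_cmp ρ⁻¹ (r / ρ) (inv_pos.2 hρ0) (inv_lt_one_of_one_lt₀ hρ) (div_pos hr hρ0)
  rw [Real.log_inv, Real.log_div hr.ne' hρ0.ne'] at h
  have hd : (ρ - 1) ≠ 0 := by linarith
  have hpos : 0 < ρ ^ 4 * ((ρ - 1) ^ 2)⁻¹ := by positivity
  have h2 := mul_nonneg hpos.le h
  have e : ρ ^ 4 * ((ρ - 1) ^ 2)⁻¹ * ((r / ρ - ρ⁻¹) * ((ρ⁻¹ * -Real.log ρ - ρ⁻¹ + 1) * (r / ρ - 1) ^ 2
      - (r / ρ * (Real.log r - Real.log ρ) - r / ρ + 1) * (ρ⁻¹ - 1) ^ 2))
      = (ss ρ + tt ρ * r) * (r - 1) ^ 2 - r * Real.log r * (r - 1) := by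
    unfold ss tt
    field_simp
    ring
  rw [e] at h2
  linarith

lemma tt_nonneg (ρ : ℝ) (hρ : 1 < ρ) : 0 ≤ tt ρ := by
  unfold tt
  apply div_nonneg _ (sq_nonneg _)
  linarith [Real.log_le_sub_one_of_pos (by linarith : 0 < ρ)]

lemma ss_nonneg (ρ : ℝ) (hρ : 1 < ρ) : 0 ≤ ss ρ := by
  unfold ss
  apply div_nonneg _ (sq_nonneg _)
  apply mul_nonneg (by linarith)
  have h := Real.one_sub_inv_le_log_of_pos (by linarith : 0 < ρ)
  have h2 := mul_le_mul_of_nonneg_left h (by linarith : 0 ≤ ρ)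
  have e : ρ * (1 - ρ⁻¹) = ρ - 1 := by
    have : ρ ≠ 0 := by linarith
    field_simp
  rw [e] at h2
  linarith

lemma one_le_add (ρ : ℝ) (hρ : 1 < ρ) : 1 ≤ ss ρ + tt ρ := by
  have hd : 0 < ρ - 1 := by linarith
  have e : ss ρ + tt ρ = (ρ + 1) * Real.log ρ / (ρ - 1) - 1 := by
    unfold ss tt
    field_simp
    ring
  rw [e]
  have h := log_ge ρ hρ.le
  have : 2 ≤ (ρ + 1) * Real.log ρ / (ρ - 1) := by
    rw [le_div_iff₀ hd]
    linarith
  linarith

lemma Phi_le (ρ p q : ℝ) (hρ : 1 < ρ) (hp : 0 ≤ p) (hq : 0 ≤ q) :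
    Phi p q ≤ ss ρ * p + tt ρ * q := by
  have hs := ss_nonneg ρ hρ
  have ht := tt_nonneg ρ hρ
  unfold Phi
  split_ifs with h
  · subst h
    nlinarith [one_le_add ρ hρ]
  · rcases hp.eq_or_lt with hp | hp
    · subst hp
      simp only [zero_mul, zero_div, mul_zero, zero_add]
      positivity
    rcases hq.eq_or_lt with hq | hq
    · subst hq
      simp only [mul_zero, zero_mul, zero_div, add_zero]
      positivity
    have hr : 0 < q / p := div_pos hq hp
    have h1 := tangent ρ (q / p) hρ hr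
    have hne : q / p - 1 ≠ 0 := by
      intro h0
      apply h
      have : q / p = 1 := by linarith
      rw [div_eq_one_iff_eq hp.ne'] at this
      exact this.symm
    have hsq : 0 < (q / p - 1) ^ 2 := by positivity
    have h2 : q / p * Real.log (q / p) / (q / p - 1) ≤ ss ρ + tt ρ * (q / p) := by
      have e : q / p * Real.log (q / p) / (q / p - 1)
          = q / p * Real.log (q / p) * (q / p - 1) / (q / p - 1) ^ 2 := by
        field_simp
      rw [e, div_le_iff₀ hsq]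
      exact h1
    have h3 := mul_le_mul_of_nonneg_left h2 hp.le
    have hqp : q - p ≠ 0 := sub_ne_zero.2 (fun h0 => h h0.symm)
    have e2 : p * (q / p * Real.log (q / p) / (q / p - 1))
        = p * q * (Real.log q - Real.log p) / (q - p) := by
      rw [Real.log_div hq.ne' hp.ne']
      have : q / p - 1 = (q - p) / p := by field_simp
      rw [this]
      field_simp
    have e3 : p * (ss ρ + tt ρ * (q / p)) = ss ρ * p + tt ρ * q := by
      field_simp
    rw [e2, e3] at h3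
    exact h3

/-- entropy is at most the weighted load -/
theorem entropy_le_load' (A B : ι → Finset α) (h : OneCross A B) (μ : ι → ℝ) (hμ0 : ∀ i, 0 ≤ μ i)
    (hμ : ∑ i, μ i = 1) (ρ : ℝ) (hρ : 1 < ρ) :
    - ∑ i, μ i * Real.log (μ i) ≤
      ∑ i, μ i * (ss ρ * (A i).card + tt ρ * (B i).card) := by
  let Ω : Finset α := univ.biUnion (fun i => A i ∪ B i)
  have hΩA : ∀ i, A i ⊆ Ω := fun i x hx =>
    Finset.mem_biUnion.2 ⟨i, Finset.mem_univ _, Finset.mem_union_left _ hx⟩
  have hΩB : ∀ i, B i ⊆ Ω := fun i x hx =>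
    Finset.mem_biUnion.2 ⟨i, Finset.mem_univ _, Finset.mem_union_right _ hx⟩
  have h1 := entropy_le_Phi A B h μ hμ0 hμ Ω hΩB
  refine h1.trans ?_
  have h2 : ∀ x ∈ Ω, Phi (∑ i, if x ∈ A i then μ i else 0) (∑ i, if x ∈ B i then μ i else 0)
      ≤ ss ρ * (∑ i, if x ∈ A i then μ i else 0) + tt ρ * (∑ i, if x ∈ B i then μ i else 0) := by
    intro x _
    apply Phi_le ρ _ _ hρ
    · apply Finset.sum_nonneg
      intro i _
      split_ifs
      · exact hμ0 i
      · exact le_refl _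
    · apply Finset.sum_nonneg
      intro i _
      split_ifs
      · exact hμ0 i
      · exact le_refl _
  refine (Finset.sum_le_sum h2).trans (le_of_eq ?_)
  have hcA : ∀ i, ∑ x ∈ Ω, (if x ∈ A i then μ i else 0) = μ i * (A i).card := by
    intro i
    rw [← Finset.sum_filter, Finset.sum_const, nsmul_eq_mul, mul_comm]
    congr 3
    ext x
    simp only [Finset.mem_filter, and_iff_right_iff_imp]
    exact fun hx => hΩA i hx
  have hcB : ∀ i, ∑ x ∈ Ω, (if x ∈ B i then μ i else 0) = μ i * (B i).card := by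
    intro i
    rw [← Finset.sum_filter, Finset.sum_const, nsmul_eq_mul, mul_comm]
    congr 3
    ext x
    simp only [Finset.mem_filter, and_iff_right_iff_imp]
    exact fun hx => hΩB i hx
  rw [Finset.sum_add_distrib, ← Finset.mul_sum, ← Finset.mul_sum, Finset.sum_comm,
    Finset.sum_comm (s := Ω)]
  rw [Finset.sum_congr rfl (fun i _ => hcA i), Finset.sum_congr rfl (fun i _ => hcB i)]
  rw [Finset.mul_sum, Finset.mul_sum, ← Finset.sum_add_distrib]
  apply Finset.sum_congr rfl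
  intro i _
  ring

/-- LYM-type inequality with slope `ρ` -/
theorem lym' (A B : ι → Finset α) (h : OneCross A B) (ρ : ℝ) (hρ : 1 < ρ) :
    ∑ i, Real.exp (-(ss ρ * (A i).card + tt ρ * (B i).card)) ≤ 1 := by
  rcases isEmpty_or_nonempty ι with he | he
  · simp
  set w : ι → ℝ := fun i => Real.exp (-(ss ρ * (A i).card + tt ρ * (B i).card)) with hw
  set W := ∑ i, w i with hW
  have hWpos : 0 < W := Finset.sum_pos (fun i _ => Real.exp_pos _) Finset.univ_nonempty
  have hμ0 : ∀ i, 0 ≤ w i / W := fun i => div_nonneg (Real.exp_pos _).le hWpos.le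
  have hμ : ∑ i, w i / W = 1 := by
    rw [← Finset.sum_div, div_self hWpos.ne']
  have h1 := entropy_le_load' A B h (fun i => w i / W) hμ0 hμ ρ hρ
  have h2 : ∀ i, w i / W * Real.log (w i / W)
      = - (w i / W * (ss ρ * (A i).card + tt ρ * (B i).card)) - w i / W * Real.log W := by
    intro i
    rw [Real.log_div (Real.exp_pos _).ne' hWpos.ne', hw, Real.log_exp]
    ring
  have h3 : ∑ i, w i / W * Real.log (w i / W)
      = - (∑ i, w i / W * (ss ρ * (A i).card + tt ρ * (B i).card)) - Real.log W := by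
    rw [Finset.sum_congr rfl (fun i _ => h2 i), Finset.sum_sub_distrib, Finset.sum_neg_distrib,
      ← Finset.sum_mul, hμ, one_mul]
  rw [h3] at h1
  have h4 : Real.log W ≤ 0 := by linarith
  by_contra hcon
  rw [not_le] at hcon
  exact absurd h4 (not_le.2 (Real.log_pos hcon))

/-- `m ≤ (b/a)^(ab/(b-a))` -/
theorem card_le_off (A B : ι → Finset α) (h : OneCross A B) (a b : ℕ) (ha : 0 < a) (hab : a < b)
    (hA : ∀ i, (A i).card ≤ a) (hB : ∀ i, (B i).card ≤ b) :
    (Fintype.card ι : ℝ) ≤ ((b : ℝ) / a) ^ ((a : ℝ) * b / (b - a)) := by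
  have ha' : (0 : ℝ) < a := by exact_mod_cast ha
  have hab' : (a : ℝ) < b := by exact_mod_cast hab
  have hb' : (0 : ℝ) < b := ha'.trans hab'
  have hρ : 1 < (b : ℝ) / a := by rw [lt_div_iff₀ ha']; linarith
  have hs := ss_nonneg _ hρ
  have ht := tt_nonneg _ hρ
  have h2 := lym' A B h ((b : ℝ) / a) hρ
  have h3 : (Fintype.card ι : ℝ) * Real.exp (-(ss ((b : ℝ) / a) * a + tt ((b : ℝ) / a) * b)) ≤ 1 := by
    refine le_trans ?_ h2
    rw [← nsmul_eq_mul, ← Finset.card_univ, ← Finset.sum_const]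
    apply Finset.sum_le_sum
    intro i _
    apply Real.exp_le_exp.2
    have hA' : ((A i).card : ℝ) ≤ a := by exact_mod_cast hA i
    have hB' : ((B i).card : ℝ) ≤ b := by exact_mod_cast hB i
    have := mul_le_mul_of_nonneg_left hA' hs
    have := mul_le_mul_of_nonneg_left hB' ht
    linarith
  rw [Real.exp_neg, ← div_eq_mul_inv, div_le_one (Real.exp_pos _)] at h3
  refine h3.trans (le_of_eq ?_)
  rw [Real.rpow_def_of_pos (div_pos hb' ha')]
  congr 1
  have hne : (b : ℝ) / a - 1 ≠ 0 := by linarith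
  have hne2 : (b : ℝ) - a ≠ 0 := by linarith
  unfold ss tt
  have e : (b : ℝ) / a - 1 = (b - a) / a := by field_simp
  rw [e]
  field_simp
  ring

end Pool.Agent.P8FB
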